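import Mathlib

/-! Second differences and growth of potentials. -/

set_option autoImplicit false

open Filter Topology

namespace Pool.Agent.U868.RS

theorem sd_smooth {U : ℝ → ℝ} (hU : ContDiff ℝ 2 U) {B : ℝ}
    (hB : ∀ x, |deriv (deriv U) x| ≤ B) (x : ℝ) {h : ℝ} (hh : 0 ≤ h) :
    |U (x + h) + U (x - h) - 2 * U x| ≤ 2 * B * h ^ 2 := by
  have hd : Differentiable ℝ U := hU.differentiable (by norm_num)
  have hd1 : ContDiff ℝ 1 (deriv U) := by
    have : ContDiff ℝ (1 + 1) U := by exact_mod_cast hU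
    exact (contDiff_succ_iff_deriv.1 this).2.2
  have hd2 : Differentiable ℝ (deriv U) := hd1.differentiable (by norm_num)
  have hB0 : 0 ≤ B := (abs_nonneg _).trans (hB 0)
  have hlip : ∀ a b, |deriv U a - deriv U b| ≤ B * |a - b| := by
    intro a b
    have := Convex.norm_image_sub_le_of_norm_deriv_le (𝕜 := ℝ) (f := deriv U) (s := Set.univ)
      (C := B) (x := b) (y := a) (fun z _ => hd2 z) (fun z _ => by
        rw [Real.norm_eq_abs]; exact hB z) convex_univ (Set.mem_univ _) (Set.mem_univ _)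
    simpa [Real.norm_eq_abs] using this
  set φ : ℝ → ℝ := fun t => U (x + t) + U (x - t) - 2 * U x with hφ
  have hφd : ∀ t, HasDerivAt φ (deriv U (x + t) - deriv U (x - t)) t := by
    intro t
    have h1 : HasDerivAt (fun t => U (x + t)) (deriv U (x + t)) t := by
      exact HasDerivAt.comp_const_add x t (hd (x + t)).hasDerivAt
    have h2 : HasDerivAt (fun t => U (x - t)) (-deriv U (x - t)) t := by
      exact HasDerivAt.comp_const_sub x t (hd (x - t)).hasDerivAt
    have h3 : HasDerivAt φ (deriv U (x + t) + -deriv U (x - t)) t := (h1.add h2).sub_const (2 * U x)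
    exact h3.congr_deriv (by ring)
  have hb : ∀ t ∈ Set.Icc (0 : ℝ) h, ‖deriv φ t‖ ≤ 2 * B * h := by
    intro t ht
    rw [(hφd t).deriv, Real.norm_eq_abs]
    refine (hlip _ _).trans ?_
    have : |x + t - (x - t)| = 2 * t := by
      rw [show x + t - (x - t) = 2 * t by ring, abs_of_nonneg (by linarith [ht.1])]
    rw [this]
    nlinarith [ht.2]
  have h4 := Convex.norm_image_sub_le_of_norm_deriv_le (𝕜 := ℝ) (f := φ) (s := Set.Icc 0 h)
    (C := 2 * B * h) (x := 0) (y := h) (fun z _ => (hφd z).differentiableAt) hb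
    (convex_Icc 0 h) (Set.left_mem_Icc.2 hh) (Set.right_mem_Icc.2 hh)
  have h0 : φ 0 = 0 := by simp only [hφ, add_zero, sub_zero]; ring
  rw [h0, sub_zero, sub_zero, Real.norm_eq_abs, Real.norm_eq_abs, abs_of_nonneg hh] at h4
  simp only [hφ] at h4
  refine h4.trans (le_of_eq ?_)
  ring

theorem growth {U : ℝ → ℝ} (hU : Continuous U) (he : ∀ x, U (-x) = U x) {α : ℝ} (hα : 0 < α)
    (h : Tendsto (fun x => U x / x ^ α) atTop atTop) :
    ∃ C : ℝ, ∀ x, |x| ^ α - C ≤ U x := by
  have h1 : ∀ᶠ x : ℝ in atTop, 1 ≤ U x / x ^ α := h.eventually_ge_atTop 1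
  obtain ⟨X, hX⟩ := (h1.and (eventually_gt_atTop 0)).exists_forall_of_atTop
  have hX0 : 0 < X := (hX X le_rfl).2
  obtain ⟨m, _, hm⟩ := isCompact_Icc.exists_isMinOn (Set.nonempty_Icc.2 hX0.le) hU.continuousOn
  have key : ∀ x, 0 ≤ x → x ^ α - (|U m| + X ^ α) ≤ U x := by
    intro x hx
    rcases le_total X x with hXx | hxX
    · have h2 := hX x hXx
      have h3 : x ^ α ≤ U x := by
        have := h2.1
        rwa [le_div_iff₀ (Real.rpow_pos_of_pos h2.2 _), one_mul] at this
      have : 0 ≤ |U m| + X ^ α := by positivity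
      linarith
    · have h2 : U m ≤ U x := hm ⟨hx, hxX⟩
      have h3 : x ^ α ≤ X ^ α := Real.rpow_le_rpow hx hxX hα.le
      have h4 := neg_abs_le (U m)
      linarith
  refine ⟨|U m| + X ^ α, fun x => ?_⟩
  rcases le_total 0 x with hx | hx
  · rw [abs_of_nonneg hx]
    exact key x hx
  · rw [abs_of_nonpos hx, ← he x]
    exact key (-x) (by linarith)

theorem mean2 {a b : ℝ} (ha : 0 ≤ a) (hb : 0 ≤ b) {p : ℝ} (hp : 1 ≤ p) :
    (1 / 2 * a + 1 / 2 * b) ^ p ≤ 1 / 2 * a ^ p + 1 / 2 * b ^ p := by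
  have := (convexOn_rpow hp).2 (Set.mem_Ici.2 ha) (Set.mem_Ici.2 hb)
    (by norm_num : (0 : ℝ) ≤ 1 / 2) (by norm_num : (0 : ℝ) ≤ 1 / 2) (by norm_num)
  simpa only [smul_eq_mul] using this

theorem sd_rpow {α : ℝ} (hα : 0 < α) (hα2 : α ≤ 2) (x : ℝ) :
    |(|x + 1| ^ α + |x - 1| ^ α - 2 * |x| ^ α)| ≤ 2 := by
  have hz1 : 0 ≤ |x + 1| ^ α := by positivity
  have hz2 : 0 ≤ |x - 1| ^ α := by positivity
  have hup : |x + 1| ^ α + |x - 1| ^ α ≤ 2 * (|x| ^ α + 1) := by
    have hp : 1 ≤ 2 / α := by rw [le_div_iff₀ hα]; linarith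
    have h1 := mean2 hz1 hz2 hp
    have e : ∀ y : ℝ, (|y| ^ α) ^ (2 / α) = y ^ 2 := by
      intro y
      rw [← Real.rpow_mul (abs_nonneg y), mul_div_cancel₀ _ hα.ne']
      norm_num
    rw [e, e] at h1
    have h2 : 1 / 2 * (x + 1) ^ 2 + 1 / 2 * (x - 1) ^ 2 = |x| ^ 2 + 1 ^ 2 := by
      rw [sq_abs]; ring
    rw [h2] at h1
    have h3 := Real.rpow_le_rpow (by positivity) h1 (by positivity : 0 ≤ α / 2)
    rw [← Real.rpow_mul (by positivity)] at h3
    have h4 : 2 / α * (α / 2) = 1 := by field_simp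
    rw [h4, Real.rpow_one] at h3
    have h5 := Real.rpow_add_le_add_rpow (p := α / 2) (a := |x| ^ 2) (b := 1 ^ 2)
      (by positivity) (by positivity) (by positivity) (by linarith)
    have h6 : (|x| ^ 2) ^ (α / 2) = |x| ^ α := by
      rw [← Real.rpow_natCast, ← Real.rpow_mul (abs_nonneg x)]
      congr 1
      push_cast
      ring
    rw [h6] at h5
    have h7 : ((1 : ℝ) ^ 2) ^ (α / 2) = 1 := by norm_num
    rw [h7] at h5
    linarith
  have hlo : 2 * |x| ^ α - 2 ≤ |x + 1| ^ α + |x - 1| ^ α := by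
    rcases le_total α 1 with h1 | h1
    · have h2 : |x| ^ α ≤ |x + 1| ^ α + 1 := by
        have h3 : |x| ≤ |x + 1| + 1 := by
          have := abs_sub (x + 1) 1
          simpa using this
        have h4 := Real.rpow_le_rpow (abs_nonneg x) h3 hα.le
        have h5 := Real.rpow_add_le_add_rpow (p := α) (a := |x + 1|) (b := 1)
          (abs_nonneg _) zero_le_one hα.le h1
        rw [Real.one_rpow] at h5
        linarith
      have h2' : |x| ^ α ≤ |x - 1| ^ α + 1 := by
        have h3 : |x| ≤ |x - 1| + 1 := by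
          have := abs_add_le (x - 1) 1
          simpa using this
        have h4 := Real.rpow_le_rpow (abs_nonneg x) h3 hα.le
        have h5 := Real.rpow_add_le_add_rpow (p := α) (a := |x - 1|) (b := 1)
          (abs_nonneg _) zero_le_one hα.le h1
        rw [Real.one_rpow] at h5
        linarith
      linarith
    · have h2 := mean2 (abs_nonneg (x + 1)) (abs_nonneg (x - 1)) h1
      have h3 : |x| ≤ 1 / 2 * |x + 1| + 1 / 2 * |x - 1| := by
        have := abs_add_le (x + 1) (x - 1)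
        have e : |x + 1 + (x - 1)| = 2 * |x| := by
          rw [show x + 1 + (x - 1) = 2 * x by ring, abs_mul, abs_two]
        rw [e] at this
        linarith
      have h4 := Real.rpow_le_rpow (abs_nonneg x) h3 hα.le
      linarith
  rw [abs_le]
  constructor <;> linarith

end Pool.Agent.U868.RS
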