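import Pool.Agent.U868.RS.Comp

/-! Summability of the weights on a connected graph. -/

set_option autoImplicit false

open Filter Topology

namespace Pool.Agent.U868.RS

theorem summ_int {c α : ℝ} (hc : 0 < c) (hα : 0 < α) :
    Summable (fun n : ℤ => (1 + (n : ℝ) ^ 2) * Real.exp (-c * |(n : ℝ)| ^ α)) := by
  have hnat : Summable (fun n : ℕ => (1 + (n : ℝ) ^ 2) * Real.exp (-c * (n : ℝ) ^ α)) := by
    have h0 := tendsto_rpow_mul_exp_neg_mul_atTop_nhds_zero (4 / α) c hc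
    have h1 : Tendsto (fun n : ℕ => ((n : ℝ) ^ α)) atTop atTop :=
      (tendsto_rpow_atTop hα).comp tendsto_natCast_atTop_atTop
    have h2 := h0.comp h1
    have h3 : ∀ᶠ n : ℕ in atTop, (n : ℝ) ^ 4 * Real.exp (-c * (n : ℝ) ^ α) ≤ 1 := by
      have h4 : ∀ᶠ n : ℕ in atTop,
          ((n : ℝ) ^ α) ^ (4 / α) * Real.exp (-c * (n : ℝ) ^ α) < 1 :=
        h2.eventually (gt_mem_nhds zero_lt_one)
      filter_upwards [h4] with n hn
      have e : ((n : ℝ) ^ α) ^ (4 / α) = (n : ℝ) ^ 4 := by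
        rw [← Real.rpow_mul (Nat.cast_nonneg n), mul_div_cancel₀ _ hα.ne']
        norm_cast
      rw [e] at hn
      exact hn.le
    refine summable_of_isBigO_nat (g := fun n : ℕ => ((n : ℝ) ^ 2)⁻¹)
      (Real.summable_nat_pow_inv.2 one_lt_two) ?_
    refine Asymptotics.IsBigO.of_bound 2 ?_
    filter_upwards [h3, eventually_ge_atTop 1] with n hn hn1
    have hn1' : (1 : ℝ) ≤ n := by exact_mod_cast hn1
    have hE := Real.exp_pos (-c * (n : ℝ) ^ α)
    rw [Real.norm_of_nonneg (by positivity), Real.norm_of_nonneg (by positivity)]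
    rw [← div_eq_mul_inv, le_div_iff₀ (by positivity)]
    have h6 : (1 : ℝ) ≤ (n : ℝ) ^ 2 := one_le_pow₀ hn1'
    have h5 : (1 + (n : ℝ) ^ 2) * (n : ℝ) ^ 2 ≤ 2 * (n : ℝ) ^ 4 := by nlinarith
    calc (1 + (n : ℝ) ^ 2) * Real.exp (-c * (n : ℝ) ^ α) * (n : ℝ) ^ 2
        = ((1 + (n : ℝ) ^ 2) * (n : ℝ) ^ 2) * Real.exp (-c * (n : ℝ) ^ α) := by ring
      _ ≤ (2 * (n : ℝ) ^ 4) * Real.exp (-c * (n : ℝ) ^ α) :=
        mul_le_mul_of_nonneg_right h5 hE.le
      _ ≤ 2 := by nlinarith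
  refine Summable.of_nat_of_neg ?_ ?_
  · simpa using hnat
  · simpa using hnat

theorem summ_pi {V : Type} [Fintype V] [DecidableEq V] {h : ℤ → ℝ} (h0 : ∀ n, 0 ≤ h n)
    (hs : Summable h) : Summable (fun m : V → ℤ => ∏ x, h (m x)) := by
  refine summable_of_sum_le (c := (∑' n, h n) ^ (Fintype.card V))
    (fun m => Finset.prod_nonneg fun _ _ => h0 _) ?_
  intro s
  set t : V → Finset ℤ := fun x => s.image fun m => m x with ht
  have hsub : s ⊆ Fintype.piFinset t := by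
    intro m hm
    rw [Fintype.mem_piFinset]
    intro x
    exact Finset.mem_image_of_mem _ hm
  refine (Finset.sum_le_sum_of_subset_of_nonneg hsub
    fun m _ _ => Finset.prod_nonneg fun _ _ => h0 _).trans ?_
  rw [← Finset.prod_univ_sum t (fun _ n => h n)]
  calc ∏ x : V, ∑ n ∈ t x, h n ≤ ∏ _x : V, ∑' n, h n :=
        Finset.prod_le_prod (fun x _ => Finset.sum_nonneg fun _ _ => h0 _)
          fun x _ => hs.sum_le_tsum _ fun n _ => h0 n
    _ = _ := by rw [Finset.prod_const, Finset.card_univ]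

variable {V : Type} [Fintype V] [DecidableEq V]

omit [Fintype V] [DecidableEq V] in
theorem walk_bound {G : SimpleGraph V} {m : V → ℤ} {R : ℝ}
    (hR : ∀ a b, G.Adj a b → |((m a - m b : ℤ) : ℝ)| ≤ R) {a b : V} (p : G.Walk a b) :
    |((m a - m b : ℤ) : ℝ)| ≤ p.length * R := by
  induction p with
  | nil => simp
  | cons h p ih =>
    rename_i x y z
    rw [SimpleGraph.Walk.length_cons]
    have h1 := hR _ _ h
    have h2 : ((m x - m z : ℤ) : ℝ) = ((m x - m y : ℤ) : ℝ) + ((m y - m z : ℤ) : ℝ) := by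
      push_cast; ring
    rw [h2]
    refine (abs_add_le _ _).trans ?_
    push_cast at *
    linarith

/-- growth of the energy -/
theorem energy {G : SimpleGraph V} (hG : G.Connected) (v : V) {α : ℝ} (hα : 0 < α)
    (E : Finset (V × V)) (hE : ∀ a b, G.Adj a b → (a, b) ∈ E) :
    ∃ κ : ℝ, 0 < κ ∧ ∀ m : V → ℤ, m v = 0 →
      κ * ∑ x, |(m x : ℝ)| ^ α ≤ ∑ e ∈ E, |((m e.1 - m e.2 : ℤ) : ℝ)| ^ α := by
  classical
  have hw : ∀ x, ∃ p : G.Walk x v, True := fun x => by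
    obtain ⟨p⟩ := hG.preconnected x v
    exact ⟨p, trivial⟩
  choose p _ using hw
  set N : ℝ := 1 + ∑ x, ((p x).length : ℝ) with hN
  have hN1 : 1 ≤ N := by
    rw [hN]
    have : 0 ≤ ∑ x, ((p x).length : ℝ) := Finset.sum_nonneg fun _ _ => Nat.cast_nonneg _
    linarith
  have hNx : ∀ x, ((p x).length : ℝ) ≤ N := by
    intro x
    have := Finset.single_le_sum (f := fun x => ((p x).length : ℝ))
      (fun _ _ => Nat.cast_nonneg _) (Finset.mem_univ x)
    rw [hN]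
    linarith
  have hV : 0 < (Fintype.card V : ℝ) := by
    have : 0 < Fintype.card V := Fintype.card_pos_iff.2 ⟨v⟩
    exact_mod_cast this
  refine ⟨((Fintype.card V : ℝ) * N ^ α)⁻¹, by positivity, fun m hm => ?_⟩
  set S : ℝ := ∑ e ∈ E, |((m e.1 - m e.2 : ℤ) : ℝ)| ^ α with hS
  have hS0 : 0 ≤ S := Finset.sum_nonneg fun _ _ => by positivity
  have hR : ∀ a b, G.Adj a b → |((m a - m b : ℤ) : ℝ)| ≤ S ^ (1 / α) := by
    intro a b hab
    have h1 : |((m a - m b : ℤ) : ℝ)| ^ α ≤ S := by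
      have := Finset.single_le_sum (f := fun e : V × V => |((m e.1 - m e.2 : ℤ) : ℝ)| ^ α)
        (fun _ _ => by positivity) (hE a b hab)
      exact this
    have h2 := Real.rpow_le_rpow (by positivity) h1 (by positivity : 0 ≤ 1 / α)
    rwa [← Real.rpow_mul (abs_nonneg _), mul_one_div_cancel hα.ne', Real.rpow_one] at h2
  have hx : ∀ x, |(m x : ℝ)| ^ α ≤ N ^ α * S := by
    intro x
    have h1 := walk_bound hR (p x)
    rw [hm, sub_zero] at h1
    have h2 : |(m x : ℝ)| ≤ N * S ^ (1 / α) :=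
      h1.trans (mul_le_mul_of_nonneg_right (hNx x) (by positivity))
    have h3 := Real.rpow_le_rpow (abs_nonneg _) h2 hα.le
    rwa [Real.mul_rpow (by linarith) (by positivity), ← Real.rpow_mul hS0,
      one_div_mul_cancel hα.ne', Real.rpow_one] at h3
  have hsum : ∑ x, |(m x : ℝ)| ^ α ≤ (Fintype.card V : ℝ) * N ^ α * S := by
    calc ∑ x, |(m x : ℝ)| ^ α ≤ ∑ _x : V, N ^ α * S := Finset.sum_le_sum fun x _ => hx x
      _ = _ := by rw [Finset.sum_const, Finset.card_univ, nsmul_eq_mul]; ring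
  rw [inv_mul_le_iff₀ (by positivity)]
  exact hsum

theorem weight_bound {G : SimpleGraph V} (hG : G.Connected) (v : V)
    (E : Finset (V × V)) (hE : ∀ a b, G.Adj a b → (a, b) ∈ E) {w : ℤ → ℝ} {α c C : ℝ}
    (hα : 0 < α) (hc : 0 < c) (hw : ∀ n : ℤ, c * |(n : ℝ)| ^ α - C ≤ w n) :
    ∃ K c' : ℝ, 0 < K ∧ 0 < c' ∧ ∀ m : V → ℤ,
      We E w v m ≤ K * ∏ x, Real.exp (-c' * |(m x : ℝ)| ^ α) := by
  obtain ⟨κ, hκ, h⟩ := energy hG v hα E hE
  refine ⟨Real.exp (E.card * C), c * κ, Real.exp_pos _, by positivity, fun m => ?_⟩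
  unfold We
  split_ifs with hm
  · rw [← Real.exp_sum, ← Real.exp_sum, ← Real.exp_add, Real.exp_le_exp]
    have h1 : ∑ e ∈ E, -w (m e.1 - m e.2)
        ≤ ∑ e ∈ E, (C - c * |((m e.1 - m e.2 : ℤ) : ℝ)| ^ α) := by
      refine Finset.sum_le_sum fun e _ => ?_
      have := hw (m e.1 - m e.2)
      linarith
    refine h1.trans ?_
    rw [Finset.sum_sub_distrib, Finset.sum_const, nsmul_eq_mul, ← Finset.mul_sum,
      ← Finset.mul_sum]
    have := h m hm
    have h2 := mul_le_mul_of_nonneg_left this hc.le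
    linarith
  · exact mul_nonneg (Real.exp_pos _).le (Finset.prod_nonneg fun _ _ => (Real.exp_pos _).le)

theorem prod_ge {ι : Type} (s : Finset ι) {f : ι → ℝ} (hf : ∀ i, 0 ≤ f i) :
    1 + ∑ i ∈ s, f i ≤ ∏ i ∈ s, (1 + f i) := by
  classical
  induction s using Finset.induction_on with
  | empty => simp
  | insert a s ha ih =>
    rw [Finset.sum_insert ha, Finset.prod_insert ha]
    have h1 : 0 ≤ ∑ i ∈ s, f i := Finset.sum_nonneg fun i _ => hf i
    have h2 := hf a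
    nlinarith [mul_nonneg h2 h1, mul_le_mul_of_nonneg_left ih (by linarith : 0 ≤ 1 + f a)]

theorem summ_We {G : SimpleGraph V} (hG : G.Connected) (v : V)
    (E : Finset (V × V)) (hE : ∀ a b, G.Adj a b → (a, b) ∈ E) {w : ℤ → ℝ} {α c C : ℝ}
    (hα : 0 < α) (hc : 0 < c) (hw : ∀ n : ℤ, c * |(n : ℝ)| ^ α - C ≤ w n) (a : V → ℝ) :
    Summable (We E w v) ∧ Summable (fun m => We E w v m * ell a m ^ 2) := by
  obtain ⟨K, c', hK, hc', h⟩ := weight_bound hG v E hE hα hc hw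
  have h1 : Summable (fun m : V → ℤ => ∏ x, ((1 + (m x : ℝ) ^ 2) *
      Real.exp (-c' * |(m x : ℝ)| ^ α))) :=
    summ_pi (h := fun n : ℤ => (1 + (n : ℝ) ^ 2) * Real.exp (-c' * |(n : ℝ)| ^ α))
      (fun n => by positivity) (summ_int hc' hα)
  have hpg : ∀ m : V → ℤ, 1 + ∑ x, (m x : ℝ) ^ 2 ≤ ∏ x, (1 + (m x : ℝ) ^ 2) := fun m =>
    prod_ge Finset.univ (f := fun x => (m x : ℝ) ^ 2) fun x => sq_nonneg _
  have hone : ∀ m : V → ℤ, (1 : ℝ) ≤ ∏ x, (1 + (m x : ℝ) ^ 2) := fun m => by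
    have h1 : 0 ≤ ∑ x, (m x : ℝ) ^ 2 := Finset.sum_nonneg fun x _ => sq_nonneg _
    linarith [hpg m]
  have hle : ∀ m : V → ℤ, ∑ x, (m x : ℝ) ^ 2 ≤ ∏ x, (1 + (m x : ℝ) ^ 2) := fun m => by
    linarith [hpg m]
  constructor
  · refine Summable.of_nonneg_of_le (We_nonneg E w v) (fun m => ?_) (h1.mul_left K)
    refine (h m).trans ?_
    rw [Finset.prod_mul_distrib]
    refine mul_le_mul_of_nonneg_left ?_ hK.le
    have h2 : 0 ≤ ∏ x, Real.exp (-c' * |(m x : ℝ)| ^ α) :=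
      Finset.prod_nonneg fun _ _ => (Real.exp_pos _).le
    nlinarith [hone m]
  · refine Summable.of_nonneg_of_le (fun m => mul_nonneg (We_nonneg E w v m) (sq_nonneg _))
      (fun m => ?_) (h1.mul_left (K * ∑ x, a x ^ 2))
    have hell : ell a m ^ 2 ≤ (∑ x, a x ^ 2) * ∑ x, (m x : ℝ) ^ 2 :=
      Finset.sum_mul_sq_le_sq_mul_sq _ _ _
    have h2 : 0 ≤ ∏ x, Real.exp (-c' * |(m x : ℝ)| ^ α) :=
      Finset.prod_nonneg fun _ _ => (Real.exp_pos _).le
    have h3 : ell a m ^ 2 ≤ (∑ x, a x ^ 2) * ∏ x, (1 + (m x : ℝ) ^ 2) :=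
      hell.trans (mul_le_mul_of_nonneg_left (hle m) (by positivity))
    rw [Finset.prod_mul_distrib]
    calc We E w v m * ell a m ^ 2
        ≤ (K * ∏ x, Real.exp (-c' * |(m x : ℝ)| ^ α)) *
          ((∑ x, a x ^ 2) * ∏ x, (1 + (m x : ℝ) ^ 2)) :=
          mul_le_mul (h m) h3 (sq_nonneg _) (by positivity)
      _ = _ := by ring

end Pool.Agent.U868.RS
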