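import Pool.Agent.U868.RS.Edge

/-! Comparison of second moments of integer-valued surfaces. -/

set_option autoImplicit false

open Filter Topology

namespace Pool.Agent.U868.RS

variable {V : Type} [Fintype V] [DecidableEq V]

/-- weight of a height function, the product over the ordered pairs of `E` -/
noncomputable def We (E : Finset (V × V)) (w : ℤ → ℝ) (v : V) (m : V → ℤ) : ℝ :=
  if m v = 0 then ∏ e ∈ E, Real.exp (-w (m e.1 - m e.2)) else 0

/-- linear functional -/
noncomputable def ell (a : V → ℝ) (m : V → ℤ) : ℝ := ∑ y, a y * (m y : ℝ)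

theorem We_nonneg (E : Finset (V × V)) (w : ℤ → ℝ) (v : V) (m : V → ℤ) : 0 ≤ We E w v m := by
  unfold We
  split_ifs
  · exact Finset.prod_nonneg fun _ _ => (Real.exp_pos _).le
  · exact le_rfl

/-- the kernel on pairs of configurations -/
noncomputable def TT (E : Finset (V × V)) (lam : ℝ) (w : ℤ → ℝ) (v : V) (p q : V → ℤ) : ℝ :=
  ((if p v = 0 then (1 : ℝ) else 0) * (if q v = 0 then (1 : ℝ) else 0)) *
    ((∏ y : V, if p y % 2 = q y % 2 then (1 : ℝ) else 0) *
      ∏ e ∈ E, Kq lam w (p e.1 - p e.2) (q e.1 - q e.2))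

theorem par_PK : PK (fun p q : ℤ => if p % 2 = q % 2 then (1 : ℝ) else 0) := by
  have h0 := (PK.rank (fun p : ℤ => if p % 2 = 0 then (1 : ℝ) else 0)).add
    (PK.rank (fun p : ℤ => if p % 2 = 1 then (1 : ℝ) else 0))
  convert h0 using 1
  funext p q
  rcases Int.emod_two_eq_zero_or_one p with hp | hp <;>
    rcases Int.emod_two_eq_zero_or_one q with hq | hq <;> simp [hp, hq]

theorem TT_PK (E : Finset (V × V)) {lam : ℝ} {w : ℤ → ℝ} (h : PK (Kq lam w)) (v : V) :
    PK (TT E lam w v) := by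
  unfold TT
  refine (PK.rank (fun p : V → ℤ => if p v = 0 then (1 : ℝ) else 0)).mul
    ((PK.prod Finset.univ (K := fun y (p q : V → ℤ) => if p y % 2 = q y % 2 then (1 : ℝ) else 0)
      fun y _ => ?_).mul
     (PK.prod E (K := fun e (p q : V → ℤ) => Kq lam w (p e.1 - p e.2) (q e.1 - q e.2))
      fun e _ => ?_))
  · exact par_PK.comp (fun p : V → ℤ => p y)
  · exact h.comp (fun p : V → ℤ => p e.1 - p e.2)

/-- sum and difference -/
def phi (x : (V → ℤ) × (V → ℤ)) : (V → ℤ) × (V → ℤ) := (x.1 + x.2, x.1 - x.2)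

omit [Fintype V] [DecidableEq V] in
theorem phi_inj : Function.Injective (phi (V := V)) := by
  rintro ⟨m, m'⟩ ⟨n, n'⟩ h
  simp only [phi, Prod.mk.injEq] at h
  obtain ⟨h1, h2⟩ := h
  have h3 : ∀ y, m y + m' y = n y + n' y := fun y => congrFun h1 y
  have h4 : ∀ y, m y - m' y = n y - n' y := fun y => congrFun h2 y
  ext y
  · have := h3 y
    have := h4 y
    simp only
    omega
  · have := h3 y
    have := h4 y
    simp only
    omega

theorem TT_phi (E : Finset (V × V)) (lam : ℝ) (w : ℤ → ℝ) (v : V) (m m' : V → ℤ) :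
    TT E lam w v (phi (m, m')).1 (phi (m, m')).2
      = We E w v m * We E (fun n => lam * (n : ℝ) ^ 2) v m' := by
  unfold TT phi We
  simp only [Pi.add_apply, Pi.sub_apply]
  have hpar : (∏ y : V, if (m y + m' y) % 2 = (m y - m' y) % 2 then (1 : ℝ) else 0) = 1 := by
    refine Finset.prod_eq_one fun y _ => if_pos ?_
    omega
  have hK : ∀ e : V × V, Kq lam w (m e.1 + m' e.1 - (m e.2 + m' e.2))
      (m e.1 - m' e.1 - (m e.2 - m' e.2))
      = Real.exp (-w (m e.1 - m e.2)) *
        Real.exp (-(lam * ((m' e.1 - m' e.2 : ℤ) : ℝ) ^ 2)) := by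
    intro e
    unfold Kq
    rw [if_pos (by omega)]
    have e1 : (m e.1 + m' e.1 - (m e.2 + m' e.2) + (m e.1 - m' e.1 - (m e.2 - m' e.2))) / 2
        = m e.1 - m e.2 := by omega
    have e2 : (m e.1 + m' e.1 - (m e.2 + m' e.2) - (m e.1 - m' e.1 - (m e.2 - m' e.2))) / 2
        = m' e.1 - m' e.2 := by omega
    rw [e1, e2, neg_mul]
  rw [hpar, one_mul, Finset.prod_congr rfl fun e _ => hK e, Finset.prod_mul_distrib]
  by_cases h1 : m v = 0 <;> by_cases h2 : m' v = 0
  · simp [h1, h2]
  · simp [h1, h2]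
  · simp [h1, h2]
  · rw [if_neg h1, if_neg h2]
    by_cases h3 : m v + m' v = 0
    · have : m v - m' v ≠ 0 := by omega
      simp [h3, this]
    · simp [h3]

theorem TT_supp (E : Finset (V × V)) (lam : ℝ) (w : ℤ → ℝ) (v : V) (p q : V → ℤ)
    (h : TT E lam w v p q ≠ 0) : (p, q) ∈ Set.range (phi (V := V)) := by
  have h1 : ∀ y, p y % 2 = q y % 2 := by
    intro y
    by_contra hy
    apply h
    unfold TT
    rw [Finset.prod_eq_zero (Finset.mem_univ y) (if_neg hy)]
    simp
  refine ⟨(fun y => (p y + q y) / 2, fun y => (p y - q y) / 2), ?_⟩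
  simp only [phi, Prod.mk.injEq]
  constructor
  · funext y
    have := h1 y
    simp only [Pi.add_apply]
    omega
  · funext y
    have := h1 y
    simp only [Pi.sub_apply]
    omega

omit [DecidableEq V] in
theorem ell_phi (a : V → ℝ) (m m' : V → ℤ) :
    ell a (phi (m, m')).1 * ell a (phi (m, m')).2 = ell a m ^ 2 - ell a m' ^ 2 := by
  have h1 : ell a (m + m') = ell a m + ell a m' := by
    unfold ell
    rw [← Finset.sum_add_distrib]
    refine Finset.sum_congr rfl fun y _ => ?_
    simp only [Pi.add_apply]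
    push_cast
    ring
  have h2 : ell a (m - m') = ell a m - ell a m' := by
    unfold ell
    rw [← Finset.sum_sub_distrib]
    refine Finset.sum_congr rfl fun y _ => ?_
    simp only [Pi.sub_apply]
    push_cast
    ring
  simp only [phi]
  rw [h1, h2]
  ring

theorem pair_nonneg {α : Type} {K : α → α → ℝ} (h : PK K) (c : α → ℝ)
    (hs : Summable (fun x : α × α => c x.1 * c x.2 * K x.1 x.2)) :
    0 ≤ ∑' x : α × α, c x.1 * c x.2 * K x.1 x.2 := by
  have h1 : Tendsto (fun F : Finset α => F ×ˢ F) atTop atTop :=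
    tendsto_finsetProd_atTop.comp (tendsto_id.prodMk tendsto_id |>.mono_right
      (by rw [prod_atTop_atTop_eq]))
  have h2 := hs.hasSum.comp h1
  refine ge_of_tendsto h2 (Eventually.of_forall fun F => ?_)
  simp only [Function.comp_apply]
  rw [Finset.sum_product]
  exact h.finset F c

/-- general form: `Φ m - Φ m' = c (m + m') c (m - m')` -/
theorem comp_gen (E : Finset (V × V)) (v : V) {lam : ℝ} {w : ℤ → ℝ} (hK : PK (Kq lam w))
    (Φ c : (V → ℤ) → ℝ) (hΦ : ∀ m m', c (m + m') * c (m - m') = Φ m - Φ m')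
    (hW : Summable (We E w v)) (hW2 : Summable (fun m => We E w v m * Φ m))
    (hG : Summable (We E (fun n => lam * (n : ℝ) ^ 2) v))
    (hG2 : Summable (fun m => We E (fun n => lam * (n : ℝ) ^ 2) v m * Φ m)) :
    (∑' m, We E w v m) * ∑' m, We E (fun n => lam * (n : ℝ) ^ 2) v m * Φ m
      ≤ (∑' m, We E w v m * Φ m) * ∑' m, We E (fun n => lam * (n : ℝ) ^ 2) v m := by
  set W := We E w v with hWd
  set G := We E (fun n => lam * (n : ℝ) ^ 2) v with hGd
  have s1 : Summable (fun x : (V → ℤ) × (V → ℤ) => W x.1 * Φ x.1 * G x.2) :=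
    summable_mul_of_summable_norm hW2.norm hG.norm
  have s2 : Summable (fun x : (V → ℤ) × (V → ℤ) => W x.1 * (G x.2 * Φ x.2)) :=
    summable_mul_of_summable_norm hW.norm hG2.norm
  have t1 : (∑' m, W m * Φ m) * ∑' m, G m
      = ∑' x : (V → ℤ) × (V → ℤ), W x.1 * Φ x.1 * G x.2 :=
    hW2.tsum_mul_tsum hG s1
  have t2 : (∑' m, W m) * ∑' m, G m * Φ m
      = ∑' x : (V → ℤ) × (V → ℤ), W x.1 * (G x.2 * Φ x.2) :=
    hW.tsum_mul_tsum hG2 s2
  rw [t1, t2, ← sub_nonneg, ← s1.tsum_sub s2]
  set f : (V → ℤ) × (V → ℤ) → ℝ := fun x => c x.1 * c x.2 * TT E lam w v x.1 x.2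
    with hf
  have hfx : ∀ x, f (phi x) = W x.1 * Φ x.1 * G x.2
      - W x.1 * (G x.2 * Φ x.2) := by
    rintro ⟨m, m'⟩
    simp only [hf]
    rw [TT_phi]
    simp only [phi]
    rw [hΦ]
    ring
  have hsupp : Function.support f ⊆ Set.range (phi (V := V)) := by
    rintro ⟨p, q⟩ h
    refine TT_supp E lam w v p q ?_
    intro h0
    apply h
    simp only [hf]
    rw [h0, mul_zero]
  have hfs : Summable f := by
    rw [← phi_inj.summable_iff (fun x hx => by
      by_contra h
      exact hx (hsupp h))]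
    refine (s1.sub s2).congr fun x => ?_
    simp only [Function.comp_apply]
    rw [hfx]
  have e : ∑' x : (V → ℤ) × (V → ℤ), (W x.1 * Φ x.1 * G x.2
      - W x.1 * (G x.2 * Φ x.2)) = ∑' x, f x := by
    rw [← phi_inj.tsum_eq hsupp]
    exact tsum_congr fun x => (hfx x).symm
  rw [e]
  exact pair_nonneg (TT_PK E hK v) c hfs

omit [DecidableEq V] in
theorem ell_add (a : V → ℝ) (m m' : V → ℤ) : ell a (m + m') = ell a m + ell a m' := by
  unfold ell
  rw [← Finset.sum_add_distrib]
  refine Finset.sum_congr rfl fun y _ => ?_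
  simp only [Pi.add_apply]
  push_cast
  ring

omit [DecidableEq V] in
theorem ell_sub (a : V → ℝ) (m m' : V → ℤ) : ell a (m - m') = ell a m - ell a m' := by
  unfold ell
  rw [← Finset.sum_sub_distrib]
  refine Finset.sum_congr rfl fun y _ => ?_
  simp only [Pi.sub_apply]
  push_cast
  ring

theorem comp (E : Finset (V × V)) (v : V) {lam : ℝ} {w : ℤ → ℝ} (hK : PK (Kq lam w))
    (a : V → ℝ)
    (hW : Summable (We E w v)) (hW2 : Summable (fun m => We E w v m * ell a m ^ 2))
    (hG : Summable (We E (fun n => lam * (n : ℝ) ^ 2) v))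
    (hG2 : Summable (fun m => We E (fun n => lam * (n : ℝ) ^ 2) v m * ell a m ^ 2)) :
    (∑' m, We E w v m) * ∑' m, We E (fun n => lam * (n : ℝ) ^ 2) v m * ell a m ^ 2
      ≤ (∑' m, We E w v m * ell a m ^ 2) * ∑' m, We E (fun n => lam * (n : ℝ) ^ 2) v m :=
  comp_gen E v hK (fun m => ell a m ^ 2) (ell a)
    (fun m m' => by rw [ell_add, ell_sub]; ring) hW hW2 hG hG2

theorem comp_cos (E : Finset (V × V)) (v : V) {lam : ℝ} {w : ℤ → ℝ} (hK : PK (Kq lam w))
    (a : V → ℝ)
    (hW : Summable (We E w v)) (hG : Summable (We E (fun n => lam * (n : ℝ) ^ 2) v)) :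
    (∑' m, We E w v m * Real.cos (ell a m)) * ∑' m, We E (fun n => lam * (n : ℝ) ^ 2) v m
      ≤ (∑' m, We E w v m) *
        ∑' m, We E (fun n => lam * (n : ℝ) ^ 2) v m * Real.cos (ell a m) := by
  have hb : ∀ u : ℤ → ℝ, Summable (We E u v) →
      Summable (fun m => We E u v m * (-Real.cos (ell a m))) := by
    intro u hu
    refine Summable.of_norm_bounded (g := We E u v) hu fun m => ?_
    rw [norm_mul, norm_neg, Real.norm_of_nonneg (We_nonneg E u v m), Real.norm_eq_abs]
    exact mul_le_of_le_one_right (We_nonneg E u v m) (Real.abs_cos_le_one _)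
  have h := comp_gen E v hK (fun m => -Real.cos (ell a m))
    (fun m => Real.sqrt 2 * Real.sin (ell a m / 2))
    (fun m m' => by
      rw [ell_add, ell_sub]
      have h2 : Real.sqrt 2 * Real.sqrt 2 = 2 := Real.mul_self_sqrt (by norm_num)
      have h3 := Real.cos_sub_cos (ell a m') (ell a m)
      have e1 : (ell a m' + ell a m) / 2 = (ell a m + ell a m') / 2 := by ring
      have e2 : (ell a m' - ell a m) / 2 = -((ell a m - ell a m') / 2) := by ring
      rw [e1, e2, Real.sin_neg] at h3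
      calc Real.sqrt 2 * Real.sin ((ell a m + ell a m') / 2) *
            (Real.sqrt 2 * Real.sin ((ell a m - ell a m') / 2))
          = (Real.sqrt 2 * Real.sqrt 2) * (Real.sin ((ell a m + ell a m') / 2) *
            Real.sin ((ell a m - ell a m') / 2)) := by ring
        _ = -Real.cos (ell a m) - -Real.cos (ell a m') := by rw [h2]; linarith)
    hW (hb w hW) hG (hb _ hG)
  simp only [mul_neg] at h
  rw [tsum_neg, tsum_neg] at h
  linarith

end Pool.Agent.U868.RS
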