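import Mathlib

/-! The Gaussian Toeplitz matrix `exp (-lam (i-j)^2)` is bounded below. -/

set_option autoImplicit false

open MeasureTheory

namespace Pool.Agent.U868.RS

theorem gauss_cos {b : ℝ} (hb : 0 < b) (t : ℝ) :
    ∫ x : ℝ, Real.cos (t * x) * Real.exp (-b * x ^ 2)
      = Real.sqrt (Real.pi / b) * Real.exp (-t ^ 2 / (4 * b)) := by
  have h := fourierIntegral_gaussian (b := (b : ℂ)) (by simpa using hb) (t : ℂ)
  have h2 := congrArg Complex.re h
  have e1 : ∀ x : ℝ, Complex.exp (Complex.I * t * x) * Complex.exp (-b * x ^ 2)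
      = ((Real.cos (t * x) * Real.exp (-b * x ^ 2) : ℝ) : ℂ)
        + ((Real.sin (t * x) * Real.exp (-b * x ^ 2) : ℝ) : ℂ) * Complex.I := by
    intro x
    have : Complex.I * t * x = ((t * x : ℝ) : ℂ) * Complex.I := by push_cast; ring
    rw [this, Complex.exp_mul_I]
    push_cast
    ring
  have hint : Integrable (fun x : ℝ => Real.exp (-b * x ^ 2)) := integrable_exp_neg_mul_sq hb
  have hc : Integrable (fun x : ℝ => Real.cos (t * x) * Real.exp (-b * x ^ 2)) := by
    refine hint.bdd_mul (c := 1) (by fun_prop) ?_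
    exact Filter.Eventually.of_forall fun x => by
      rw [Real.norm_eq_abs]; exact Real.abs_cos_le_one _
  have hs : Integrable (fun x : ℝ => Real.sin (t * x) * Real.exp (-b * x ^ 2)) := by
    refine hint.bdd_mul (c := 1) (by fun_prop) ?_
    exact Filter.Eventually.of_forall fun x => by
      rw [Real.norm_eq_abs]; exact Real.abs_sin_le_one _
  have hL : ∫ x : ℝ, Complex.exp (Complex.I * t * x) * Complex.exp (-b * x ^ 2)
      = ((∫ x : ℝ, Real.cos (t * x) * Real.exp (-b * x ^ 2) : ℝ) : ℂ)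
        + ((∫ x : ℝ, Real.sin (t * x) * Real.exp (-b * x ^ 2) : ℝ) : ℂ) * Complex.I := by
    rw [← integral_complex_ofReal, ← integral_complex_ofReal, ← integral_mul_const,
      ← integral_add]
    · refine integral_congr_ae (Filter.Eventually.of_forall fun x => ?_)
      exact e1 x
    · exact hc.ofReal
    · exact hs.ofReal.mul_const _
  rw [hL] at h2
  simp only [Complex.add_re, Complex.ofReal_re, Complex.mul_re, Complex.I_re, mul_zero,
    Complex.ofReal_im, Complex.I_im, mul_one, sub_self, add_zero] at h2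
  rw [h2]
  have e2 : (Real.pi / b : ℂ) ^ (1 / 2 : ℂ) = ((Real.sqrt (Real.pi / b) : ℝ) : ℂ) := by
    rw [Real.sqrt_eq_rpow, Complex.ofReal_cpow (by positivity)]
    push_cast
    rfl
  have e3 : Complex.exp (-(t : ℂ) ^ 2 / (4 * b)) = ((Real.exp (-t ^ 2 / (4 * b)) : ℝ) : ℂ) := by
    push_cast
    rfl
  rw [e2, e3]
  simp only [Complex.ofReal_re, Complex.ofReal_im, mul_zero, sub_zero]

theorem int_cos (k : ℤ) (hk : k ≠ 0) :
    ∫ x in (-Real.pi)..Real.pi, Real.cos (k * x) = 0 := by
  have hk' : (k : ℝ) ≠ 0 := by exact_mod_cast hk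
  rw [intervalIntegral.integral_comp_mul_left (f := Real.cos) hk', integral_cos]
  have : Real.sin (k * Real.pi) = 0 := Real.sin_int_mul_pi k
  rw [mul_neg, Real.sin_neg, this]
  simp

/-- the trigonometric square -/
theorem sq_expand (F : Finset ℤ) (c : ℤ → ℝ) (x : ℝ) :
    ∑ i ∈ F, ∑ j ∈ F, c i * c j * Real.cos (((i - j : ℤ) : ℝ) * x)
      = (∑ i ∈ F, c i * Real.cos (i * x)) ^ 2 + (∑ i ∈ F, c i * Real.sin (i * x)) ^ 2 := by
  rw [sq, sq, Finset.sum_mul_sum, Finset.sum_mul_sum, ← Finset.sum_add_distrib]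
  refine Finset.sum_congr rfl fun i _ => ?_
  rw [← Finset.sum_add_distrib]
  refine Finset.sum_congr rfl fun j _ => ?_
  have : ((i - j : ℤ) : ℝ) * x = i * x - j * x := by push_cast; ring
  rw [this, Real.cos_sub]
  ring

theorem lower {lam : ℝ} (hl : 0 < lam) : ∃ mu : ℝ, 0 < mu ∧ ∀ (F : Finset ℤ) (c : ℤ → ℝ),
    mu * ∑ i ∈ F, c i ^ 2
      ≤ ∑ i ∈ F, ∑ j ∈ F, c i * c j * Real.exp (-lam * ((i : ℝ) - j) ^ 2) := by
  set b : ℝ := 1 / (4 * lam) with hb
  have hb0 : 0 < b := by positivity
  have hA : 0 < Real.sqrt (Real.pi / b) := Real.sqrt_pos.2 (by positivity)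
  refine ⟨(Real.sqrt (Real.pi / b))⁻¹ * (Real.exp (-b * Real.pi ^ 2) * (2 * Real.pi)),
    by positivity, fun F c => ?_⟩
  have key : ∀ i j : ℤ, Real.exp (-lam * ((i : ℝ) - j) ^ 2)
      = (Real.sqrt (Real.pi / b))⁻¹ *
        ∫ x : ℝ, Real.cos (((i - j : ℤ) : ℝ) * x) * Real.exp (-b * x ^ 2) := by
    intro i j
    rw [gauss_cos hb0, ← mul_assoc, inv_mul_cancel₀ hA.ne', one_mul]
    congr 1
    rw [hb]
    push_cast
    field_simp
  have hint : Integrable (fun x : ℝ => Real.exp (-b * x ^ 2)) := integrable_exp_neg_mul_sq hb0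
  have hc : ∀ t : ℝ, Integrable (fun x : ℝ => Real.cos (t * x) * Real.exp (-b * x ^ 2)) := by
    intro t
    refine hint.bdd_mul (c := 1) (by fun_prop) ?_
    exact Filter.Eventually.of_forall fun x => by
      rw [Real.norm_eq_abs]; exact Real.abs_cos_le_one _
  have hsum : ∑ i ∈ F, ∑ j ∈ F, c i * c j * Real.exp (-lam * ((i : ℝ) - j) ^ 2)
      = (Real.sqrt (Real.pi / b))⁻¹ *
        ∫ x : ℝ, (∑ i ∈ F, ∑ j ∈ F, c i * c j * Real.cos (((i - j : ℤ) : ℝ) * x))
          * Real.exp (-b * x ^ 2) := by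
    have h1 : ∀ x : ℝ, (∑ i ∈ F, ∑ j ∈ F, c i * c j * Real.cos (((i - j : ℤ) : ℝ) * x))
          * Real.exp (-b * x ^ 2)
        = ∑ i ∈ F, ∑ j ∈ F, c i * c j *
          (Real.cos (((i - j : ℤ) : ℝ) * x) * Real.exp (-b * x ^ 2)) := by
      intro x
      rw [Finset.sum_mul]
      refine Finset.sum_congr rfl fun i _ => ?_
      rw [Finset.sum_mul]
      refine Finset.sum_congr rfl fun j _ => ?_
      ring
    simp only [h1]
    rw [integral_finsetSum F (fun i _ => integrable_finsetSum F
      fun j _ => (hc _).const_mul _), Finset.mul_sum]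
    refine Finset.sum_congr rfl fun i _ => ?_
    rw [integral_finsetSum F (fun j _ => (hc _).const_mul _), Finset.mul_sum]
    refine Finset.sum_congr rfl fun j _ => ?_
    rw [integral_const_mul, key]
    ring
  rw [hsum, mul_assoc]
  refine mul_le_mul_of_nonneg_left ?_ (inv_nonneg.2 hA.le)
  set P : ℝ → ℝ := fun x => ∑ i ∈ F, ∑ j ∈ F, c i * c j * Real.cos (((i - j : ℤ) : ℝ) * x)
    with hP
  have hPnn : ∀ x, 0 ≤ P x := by
    intro x
    simp only [hP]
    rw [sq_expand]
    positivity
  have hPc : Continuous P := by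
    simp only [hP]
    fun_prop
  have hPi : Integrable (fun x => P x * Real.exp (-b * x ^ 2)) := by
    have h1 : (fun x : ℝ => P x * Real.exp (-b * x ^ 2))
        = fun x => ∑ i ∈ F, ∑ j ∈ F, c i * c j *
          (Real.cos (((i - j : ℤ) : ℝ) * x) * Real.exp (-b * x ^ 2)) := by
      funext x
      simp only [hP]
      rw [Finset.sum_mul]
      refine Finset.sum_congr rfl fun i _ => ?_
      rw [Finset.sum_mul]
      refine Finset.sum_congr rfl fun j _ => ?_
      ring
    rw [h1]
    exact integrable_finsetSum F (fun i _ => integrable_finsetSum F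
      fun j _ => (hc _).const_mul _)
  have hle : ∫ x in Set.Ioc (-Real.pi) Real.pi, P x * Real.exp (-b * Real.pi ^ 2)
      ≤ ∫ x : ℝ, P x * Real.exp (-b * x ^ 2) := by
    refine le_trans ?_ (setIntegral_le_integral (s := Set.Ioc (-Real.pi) Real.pi) hPi
      (Filter.Eventually.of_forall fun x => mul_nonneg (hPnn x) (Real.exp_pos _).le))
    refine setIntegral_mono_on ?_ hPi.integrableOn measurableSet_Ioc ?_
    · exact ((hPc.mul continuous_const).continuousOn.integrableOn_Icc).mono_set
        Set.Ioc_subset_Icc_self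
    · intro x hx
      refine mul_le_mul_of_nonneg_left ?_ (hPnn x)
      rw [Real.exp_le_exp]
      have : x ^ 2 ≤ Real.pi ^ 2 := by
        have h1 := hx.1
        have h2 := hx.2
        nlinarith [abs_le.2 ⟨h1.le, h2⟩]
      nlinarith
  refine le_trans (le_of_eq ?_) hle
  have hpar : ∫ x in (-Real.pi)..Real.pi, P x = 2 * Real.pi * ∑ i ∈ F, c i ^ 2 := by
    simp only [hP]
    rw [intervalIntegral.integral_finsetSum, Finset.mul_sum]
    · refine Finset.sum_congr rfl fun i hi => ?_
      rw [intervalIntegral.integral_finsetSum]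
      · rw [Finset.sum_eq_single i]
        · simp
          ring
        · intro j _ hj
          rw [intervalIntegral.integral_const_mul, int_cos _ (sub_ne_zero.2 (Ne.symm hj)),
            mul_zero]
        · exact fun h => absurd hi h
      · intro j _
        exact (by fun_prop : Continuous _).intervalIntegrable _ _
    · intro i _
      exact (by fun_prop : Continuous _).intervalIntegrable _ _
  rw [integral_mul_const, ← intervalIntegral.integral_of_le (by linarith [Real.pi_pos]), hpar]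
  ring

end Pool.Agent.U868.RS
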