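import Pool.Agent.U868.RS.PK
import Pool.Agent.U868.RS.Gau

/-! The edge kernel `exp (-w ((p+q)/2)) exp (-lam ((p-q)/2)^2)` on pairs of integers of the same
parity is positive semidefinite if the second differences of `w` are small. -/

set_option autoImplicit false

namespace Pool.Agent.U868.RS

/-- the kernel -/
noncomputable def Kq (lam : ℝ) (w : ℤ → ℝ) (p q : ℤ) : ℝ :=
  if p % 2 = q % 2 then
    Real.exp (-w ((p + q) / 2)) * Real.exp (-lam * (((p - q) / 2 : ℤ) : ℝ) ^ 2) else 0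

theorem second {w : ℤ → ℝ} {η : ℝ} (h : ∀ n, |w (n + 1) + w (n - 1) - 2 * w n| ≤ η) (s : ℤ) :
    ∀ d : ℕ, |(w (s + (d + 1)) + w (s - (d + 1))) - (w (s + d) + w (s - d))| ≤ (2 * d + 1) * η ∧
      |w (s + d) + w (s - d) - 2 * w s| ≤ η * d ^ 2 := by
  intro d
  induction d with
  | zero =>
    refine ⟨?_, ?_⟩
    · have := h s
      simp only [Nat.cast_zero, zero_add, add_zero, sub_zero, mul_zero, one_mul]
      convert this using 2
      ring
    · simp only [Nat.cast_zero, add_zero, sub_zero]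
      rw [show w s + w s - 2 * w s = 0 by ring]
      simp
  | succ d ih =>
    obtain ⟨h1, h2⟩ := ih
    have h3 := h (s + (d + 1))
    have h4 := h (s - (d + 1))
    push_cast
    have e1 : s + ((d : ℤ) + 1) + 1 = s + (d + 1 + 1) := by ring
    have e2 : s + ((d : ℤ) + 1) - 1 = s + d := by ring
    have e3 : s - ((d : ℤ) + 1) + 1 = s - d := by ring
    have e4 : s - ((d : ℤ) + 1) - 1 = s - (d + 1 + 1) := by ring
    rw [e1, e2] at h3
    rw [e3, e4] at h4
    rw [abs_le] at *
    refine ⟨⟨by linarith [h1.1, h3.1, h4.1], by linarith [h1.2, h3.2, h4.2]⟩, ?_⟩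
    rw [abs_le]
    constructor
    · nlinarith [h1.1, h2.1]
    · nlinarith [h1.2, h2.2]

theorem second' {w : ℤ → ℝ} {η : ℝ} (h : ∀ n, |w (n + 1) + w (n - 1) - 2 * w n| ≤ η) (s d : ℤ) :
    |w (s + d) + w (s - d) - 2 * w s| ≤ η * d ^ 2 := by
  rcases Int.natAbs_eq d with hd | hd
  · have := (second h s d.natAbs).2
    rw [← hd] at this
    convert this using 2
    rw [← Int.cast_natCast (R := ℝ) d.natAbs, ← hd]
  · have := (second h s d.natAbs).2
    have e : ((d.natAbs : ℕ) : ℤ) = -d := by omega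
    rw [e] at this
    convert this using 2
    · rw [sub_neg_eq_add, ← sub_eq_add_neg]
      ring
    · rw [← Int.cast_natCast (R := ℝ) d.natAbs, e]
      push_cast
      ring

theorem summ {lam : ℝ} (hl : 0 < lam) :
    Summable (fun d : ℤ => (d : ℝ) ^ 2 * Real.exp (-(lam / 2) * (d : ℝ) ^ 2)) := by
  have h := summable_pow_mul_jacobiTheta₂_term_bound 0 (T := lam / (2 * Real.pi))
    (by positivity) 2
  refine h.congr fun d => ?_
  have e : ((|d| : ℤ) : ℝ) ^ 2 = (d : ℝ) ^ 2 := by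
    rw [Int.cast_abs, sq_abs]
  rw [e]
  congr 2
  field_simp
  ring

theorem edge_pos {lam : ℝ} (hl : 0 < lam) : ∃ η : ℝ, 0 < η ∧ ∀ w : ℤ → ℝ,
    (∀ n, |w (n + 1) + w (n - 1) - 2 * w n| ≤ η) → ∀ (ε : ℤ) (F : Finset ℤ) (c : ℤ → ℝ),
    0 ≤ ∑ i ∈ F, ∑ j ∈ F, c i * c j *
      (Real.exp (-w (i + j + ε)) * Real.exp (-lam * ((i : ℝ) - j) ^ 2)) := by
  obtain ⟨mu, hmu, hlow⟩ := lower hl
  set g : ℤ → ℝ := fun d => (d : ℝ) ^ 2 * Real.exp (-(lam / 2) * (d : ℝ) ^ 2) with hg
  have hgs : Summable g := summ hl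
  have hg0 : ∀ d, 0 ≤ g d := fun d => by simp only [hg]; positivity
  set S : ℝ := ∑' d, g d with hS
  have hS0 : 0 ≤ S := tsum_nonneg hg0
  refine ⟨min lam (mu / (S + 1)), lt_min hl (by positivity), fun w hw ε F c => ?_⟩
  set η : ℝ := min lam (mu / (S + 1)) with hη
  have hη0 : 0 < η := lt_min hl (by positivity)
  have hη1 : η ≤ lam := min_le_left _ _
  have hη2 : η * (S + 1) ≤ mu := by
    have := min_le_right lam (mu / (S + 1))
    rw [← hη, le_div_iff₀ (by positivity)] at this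
    exact this
  set c' : ℤ → ℝ := fun i => c i * Real.exp (-w (2 * i + ε) / 2) with hc'
  set δ : ℤ → ℤ → ℝ := fun i j => (w (2 * i + ε) + w (2 * j + ε)) / 2 - w (i + j + ε) with hδ
  have hδb : ∀ i j : ℤ, |δ i j| ≤ η / 2 * ((i : ℝ) - j) ^ 2 := by
    intro i j
    have h1 := second' hw (i + j + ε) (i - j)
    have e1 : i + j + ε + (i - j) = 2 * i + ε := by ring
    have e2 : i + j + ε - (i - j) = 2 * j + ε := by ring
    rw [e1, e2] at h1
    have : δ i j = (w (2 * i + ε) + w (2 * j + ε) - 2 * w (i + j + ε)) / 2 := by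
      simp only [hδ]; ring
    rw [this, abs_div, abs_two]
    push_cast at h1
    linarith
  have hterm : ∀ i j : ℤ, c i * c j *
      (Real.exp (-w (i + j + ε)) * Real.exp (-lam * ((i : ℝ) - j) ^ 2))
      = c' i * c' j * Real.exp (-lam * ((i : ℝ) - j) ^ 2)
        + c' i * c' j * (Real.exp (-lam * ((i : ℝ) - j) ^ 2) * (Real.exp (δ i j) - 1)) := by
    intro i j
    have : Real.exp (-w (i + j + ε)) = Real.exp (-w (2 * i + ε) / 2) *
        Real.exp (-w (2 * j + ε) / 2) * Real.exp (δ i j) := by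
      rw [← Real.exp_add, ← Real.exp_add]
      congr 1
      simp only [hδ]
      ring
    rw [this]
    simp only [hc']
    ring
  have hbd : ∀ i j : ℤ, |Real.exp (-lam * ((i : ℝ) - j) ^ 2) * (Real.exp (δ i j) - 1)|
      ≤ η / 2 * g (i - j) := by
    intro i j
    set x : ℝ := ((i : ℝ) - j) ^ 2 with hx
    have hx0 : 0 ≤ x := by positivity
    have h1 : |Real.exp (δ i j) - 1| ≤ |δ i j| * Real.exp |δ i j| := by
      rcases le_total 0 (δ i j) with h | h
      · rw [abs_of_nonneg h, abs_of_nonneg (by linarith [Real.add_one_le_exp (δ i j)])]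
        have := Real.add_one_le_exp (-(δ i j))
        rw [Real.exp_neg] at this
        have h3 := Real.exp_pos (δ i j)
        have h4 : (1 - δ i j) * Real.exp (δ i j) ≤ 1 := by
          have := mul_le_mul_of_nonneg_right this h3.le
          rw [inv_mul_cancel₀ h3.ne'] at this
          linarith
        linarith
      · rw [abs_of_nonpos h, abs_of_nonpos (by
          rw [sub_nonpos]; exact Real.exp_le_one_iff.2 h)]
        have h3 := Real.add_one_le_exp (δ i j)
        have h4 : 1 ≤ Real.exp (-(δ i j)) := Real.one_le_exp (by linarith)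
        nlinarith
    have h2 : |δ i j| ≤ η / 2 * x := hδb i j
    have h3 : |δ i j| * Real.exp |δ i j| ≤ η / 2 * x * Real.exp (lam / 2 * x) := by
      refine mul_le_mul h2 ?_ (Real.exp_pos _).le (by positivity)
      rw [Real.exp_le_exp]
      refine h2.trans ?_
      gcongr
    rw [abs_mul, abs_of_pos (Real.exp_pos _)]
    calc Real.exp (-lam * x) * |Real.exp (δ i j) - 1|
        ≤ Real.exp (-lam * x) * (η / 2 * x * Real.exp (lam / 2 * x)) := by
          refine mul_le_mul_of_nonneg_left (h1.trans h3) (Real.exp_pos _).le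
      _ = η / 2 * g (i - j) := by
          simp only [hg]
          push_cast
          rw [← hx]
          have : Real.exp (-lam * x) * Real.exp (lam / 2 * x) = Real.exp (-(lam / 2) * x) := by
            rw [← Real.exp_add]
            congr 1
            ring
          calc Real.exp (-lam * x) * (η / 2 * x * Real.exp (lam / 2 * x))
              = η / 2 * x * (Real.exp (-lam * x) * Real.exp (lam / 2 * x)) := by ring
            _ = _ := by rw [this]; ring
  have hrow : ∀ i : ℤ, ∑ j ∈ F, g (i - j) ≤ S := by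
    intro i
    have h1 : Summable (fun j => g (i - j)) := (Equiv.subLeft i).summable_iff.2 hgs
    refine (h1.sum_le_tsum F fun j _ => hg0 _).trans (le_of_eq ?_)
    exact (Equiv.subLeft i).tsum_eq g
  have hrow' : ∀ j : ℤ, ∑ i ∈ F, g (i - j) ≤ S := by
    intro j
    have h1 : Summable (fun i => g (i - j)) := (Equiv.subRight j).summable_iff.2 hgs
    refine (h1.sum_le_tsum F fun j _ => hg0 _).trans (le_of_eq ?_)
    exact (Equiv.subRight j).tsum_eq g
  have hE : |∑ i ∈ F, ∑ j ∈ F, c' i * c' j *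
      (Real.exp (-lam * ((i : ℝ) - j) ^ 2) * (Real.exp (δ i j) - 1))|
      ≤ η / 2 * S * ∑ i ∈ F, c' i ^ 2 := by
    have h1 : ∀ i j : ℤ, |c' i * c' j *
        (Real.exp (-lam * ((i : ℝ) - j) ^ 2) * (Real.exp (δ i j) - 1))|
        ≤ (c' i ^ 2 / 2) * (η / 2 * g (i - j)) + (c' j ^ 2 / 2) * (η / 2 * g (i - j)) := by
      intro i j
      rw [abs_mul]
      have h2 : |c' i * c' j| ≤ c' i ^ 2 / 2 + c' j ^ 2 / 2 := by
        rw [abs_le]
        constructor <;> nlinarith [sq_nonneg (c' i + c' j), sq_nonneg (c' i - c' j)]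
      calc _ ≤ (c' i ^ 2 / 2 + c' j ^ 2 / 2) * (η / 2 * g (i - j)) :=
            mul_le_mul h2 (hbd i j) (abs_nonneg _) (by positivity)
        _ = _ := by ring
    refine (Finset.abs_sum_le_sum_abs _ _).trans ?_
    refine (Finset.sum_le_sum fun i _ => (Finset.abs_sum_le_sum_abs _ _).trans
      (Finset.sum_le_sum fun j _ => h1 i j)).trans ?_
    simp only [Finset.sum_add_distrib]
    have h3 : ∑ i ∈ F, ∑ j ∈ F, (c' i ^ 2 / 2) * (η / 2 * g (i - j))
        ≤ ∑ i ∈ F, (c' i ^ 2 / 2) * (η / 2 * S) := by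
      refine Finset.sum_le_sum fun i _ => ?_
      rw [← Finset.mul_sum, ← Finset.mul_sum]
      have := hrow i
      gcongr
    have h4 : ∑ i ∈ F, ∑ j ∈ F, (c' j ^ 2 / 2) * (η / 2 * g (i - j))
        ≤ ∑ i ∈ F, (c' i ^ 2 / 2) * (η / 2 * S) := by
      rw [Finset.sum_comm]
      refine Finset.sum_le_sum fun j _ => ?_
      rw [← Finset.mul_sum, ← Finset.mul_sum]
      have := hrow' j
      gcongr
    refine (add_le_add h3 h4).trans (le_of_eq ?_)
    rw [← Finset.sum_add_distrib, Finset.mul_sum]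
    refine Finset.sum_congr rfl fun i _ => ?_
    ring
  have hsplit : ∑ i ∈ F, ∑ j ∈ F, c i * c j *
      (Real.exp (-w (i + j + ε)) * Real.exp (-lam * ((i : ℝ) - j) ^ 2))
      = ∑ i ∈ F, ∑ j ∈ F, c' i * c' j * Real.exp (-lam * ((i : ℝ) - j) ^ 2)
        + ∑ i ∈ F, ∑ j ∈ F, c' i * c' j *
          (Real.exp (-lam * ((i : ℝ) - j) ^ 2) * (Real.exp (δ i j) - 1)) := by
    rw [← Finset.sum_add_distrib]
    refine Finset.sum_congr rfl fun i _ => ?_
    rw [← Finset.sum_add_distrib]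
    exact Finset.sum_congr rfl fun j _ => hterm i j
  rw [hsplit]
  have h5 := hlow F c'
  have h6 := (abs_le.1 hE).1
  have h7 : 0 ≤ ∑ i ∈ F, c' i ^ 2 := Finset.sum_nonneg fun i _ => sq_nonneg _
  have h8 : η / 2 * S ≤ mu := by nlinarith
  nlinarith

theorem edge_PK {lam : ℝ} (hl : 0 < lam) : ∃ η : ℝ, 0 < η ∧ ∀ w : ℤ → ℝ,
    (∀ n, |w (n + 1) + w (n - 1) - 2 * w n| ≤ η) → PK (Kq lam w) := by
  obtain ⟨η, hη, h⟩ := edge_pos hl
  refine ⟨η, hη, fun w hw => ?_⟩
  have hk : ∀ ε : ℤ, PK (fun i j : ℤ =>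
      Real.exp (-w (i + j + ε)) * Real.exp (-lam * ((i : ℝ) - j) ^ 2)) := by
    intro ε
    refine PK.of_finset ?_ fun F c => h w hw ε F c
    intro a b
    rw [add_comm a b]
    congr 2
    ring
  have h0 := (PK.rank (fun p : ℤ => if p % 2 = 0 then (1 : ℝ) else 0)).mul
    ((hk 0).comp (fun p : ℤ => p / 2))
  have h1 := (PK.rank (fun p : ℤ => if p % 2 = 1 then (1 : ℝ) else 0)).mul
    ((hk 1).comp (fun p : ℤ => p / 2))
  have h2 := h0.add h1
  convert h2 using 1
  funext p q
  unfold Kq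
  rcases Int.emod_two_eq_zero_or_one p with hp | hp <;>
    rcases Int.emod_two_eq_zero_or_one q with hq | hq
  · have e1 : (p + q) / 2 = p / 2 + q / 2 + 0 := by omega
    have e2 : (p - q) / 2 = p / 2 - q / 2 := by omega
    simp [hp, hq, e1, e2]
  · simp [hp, hq]
  · simp [hp, hq]
  · have e1 : (p + q) / 2 = p / 2 + q / 2 + 1 := by omega
    have e2 : (p - q) / 2 = p / 2 - q / 2 := by omega
    simp [hp, hq, e1, e2]

end Pool.Agent.U868.RS
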