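import Mathlib

/-! Positive semidefinite kernels on a type: closure properties. -/

set_option autoImplicit false

namespace Pool.Agent.U868.RS

/-- Real positive semidefinite kernels (all finite families of points, repetitions allowed),
symmetric. -/
structure PK {α : Type} (K : α → α → ℝ) : Prop where
  symm : ∀ a b, K a b = K b a
  nn : ∀ (ι : Type) [Fintype ι] (x : ι → α) (c : ι → ℝ),
    0 ≤ ∑ i, ∑ j, c i * c j * K (x i) (x j)

theorem PK.comp {α β : Type} {K : α → α → ℝ} (h : PK K) (f : β → α) :
    PK (fun p q => K (f p) (f q)) :=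
  ⟨fun _ _ => h.symm _ _, fun ι _ x c => h.nn ι (fun i => f (x i)) c⟩

theorem PK.rank {α : Type} (f : α → ℝ) : PK (fun p q => f p * f q) := by
  refine ⟨fun _ _ => mul_comm _ _, fun ι _ x c => ?_⟩
  have : ∑ i, ∑ j, c i * c j * (f (x i) * f (x j)) = (∑ i, c i * f (x i)) ^ 2 := by
    rw [sq, Finset.sum_mul_sum]
    refine Finset.sum_congr rfl fun i _ => Finset.sum_congr rfl fun j _ => ?_
    ring
  rw [this]
  positivity

theorem PK.add {α : Type} {K L : α → α → ℝ} (h : PK K) (h' : PK L) :
    PK (fun p q => K p q + L p q) := by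
  refine ⟨fun a b => by rw [h.symm, h'.symm], fun ι _ x c => ?_⟩
  have h1 := h.nn ι x c
  have h2 := h'.nn ι x c
  have : ∑ i, ∑ j, c i * c j * (K (x i) (x j) + L (x i) (x j))
      = ∑ i, ∑ j, c i * c j * K (x i) (x j) + ∑ i, ∑ j, c i * c j * L (x i) (x j) := by
    rw [← Finset.sum_add_distrib]
    refine Finset.sum_congr rfl fun i _ => ?_
    rw [← Finset.sum_add_distrib]
    refine Finset.sum_congr rfl fun j _ => ?_
    ring
  rw [this]
  positivity

theorem PK.mat {α : Type} {K : α → α → ℝ} (h : PK K) {ι : Type} [Fintype ι] (x : ι → α) :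
    (Matrix.of fun i j : ι => K (x i) (x j)).PosSemidef := by
  classical
  refine Matrix.PosSemidef.of_dotProduct_mulVec_nonneg ?_ ?_
  · ext i j
    simp [Matrix.conjTranspose_apply, h.symm (x j) (x i)]
  · intro c
    have := h.nn ι x c
    refine le_of_le_of_eq this ?_
    simp only [dotProduct, Matrix.mulVec, Matrix.of_apply, star_trivial, Finset.mul_sum]
    refine Finset.sum_congr rfl fun i _ => Finset.sum_congr rfl fun j _ => ?_
    ring

theorem PK.mul {α : Type} {K L : α → α → ℝ} (h : PK K) (h' : PK L) :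
    PK (fun p q => K p q * L p q) := by
  classical
  refine ⟨fun a b => by rw [h.symm, h'.symm], fun ι _ x c => ?_⟩
  have h1 := (h.mat x).hadamard (h'.mat x)
  have h2 := h1.dotProduct_mulVec_nonneg c
  refine le_of_le_of_eq h2 ?_
  simp only [dotProduct, Matrix.mulVec, Matrix.hadamard_apply, Matrix.of_apply, star_trivial,
    Finset.mul_sum]
  refine Finset.sum_congr rfl fun i _ => Finset.sum_congr rfl fun j _ => ?_
  ring

theorem PK.one {α : Type} : PK (fun _ _ : α => (1 : ℝ)) := by
  have := PK.rank (fun _ : α => (1 : ℝ))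
  simpa using this

theorem PK.prod {α κ : Type} (s : Finset κ) {K : κ → α → α → ℝ} (h : ∀ k ∈ s, PK (K k)) :
    PK (fun p q => ∏ k ∈ s, K k p q) := by
  classical
  induction s using Finset.induction_on with
  | empty => simpa using PK.one
  | insert a s ha ih =>
    simp only [Finset.prod_insert ha]
    exact (h a (Finset.mem_insert_self _ _)).mul
      (ih fun k hk => h k (Finset.mem_insert_of_mem hk))

/-- it is enough to consider finite sets of points -/
theorem PK.of_finset {α : Type} [DecidableEq α] {K : α → α → ℝ} (hs : ∀ a b, K a b = K b a)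
    (h : ∀ (F : Finset α) (c : α → ℝ), 0 ≤ ∑ a ∈ F, ∑ b ∈ F, c a * c b * K a b) : PK K := by
  refine ⟨hs, fun ι _ x c => ?_⟩
  set F : Finset α := Finset.univ.image x with hF
  have h1 := h F (fun a => ∑ i ∈ Finset.univ.filter (fun i => x i = a), c i)
  have hm : ∀ i ∈ (Finset.univ : Finset ι), x i ∈ F := fun i _ =>
    Finset.mem_image_of_mem _ (Finset.mem_univ _)
  convert h1 using 1
  rw [← Finset.sum_fiberwise_of_maps_to hm]
  refine Finset.sum_congr rfl fun a _ => ?_
  have h2 : ∀ i ∈ Finset.univ.filter (fun i => x i = a), ∑ j, c i * c j * K (x i) (x j)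
      = ∑ b ∈ F, c i * (∑ j ∈ Finset.univ.filter (fun j => x j = b), c j) * K a b := by
    intro i hi
    rw [Finset.mem_filter] at hi
    rw [← Finset.sum_fiberwise_of_maps_to hm]
    refine Finset.sum_congr rfl fun b _ => ?_
    rw [Finset.mul_sum, Finset.sum_mul]
    refine Finset.sum_congr rfl fun j hj => ?_
    rw [Finset.mem_filter] at hj
    rw [hi.2, hj.2]
  rw [Finset.sum_congr rfl h2, Finset.sum_comm]
  refine Finset.sum_congr rfl fun b _ => ?_
  rw [Finset.sum_mul, Finset.sum_mul]

theorem PK.finset {α : Type} {K : α → α → ℝ} (h : PK K) (F : Finset α) (c : α → ℝ) :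
    0 ≤ ∑ a ∈ F, ∑ b ∈ F, c a * c b * K a b := by
  have := h.nn F (fun i => i.1) (fun i => c i.1)
  rw [← Finset.sum_coe_sort F (fun a => ∑ b ∈ F, c a * c b * K a b)]
  convert this using 1
  refine Finset.sum_congr rfl fun a _ => ?_
  rw [← Finset.sum_coe_sort F (fun b => c a.1 * c b * K a.1 b)]

end Pool.Agent.U868.RS
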